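import Pool.Agent.Helper99.BK.Stmts

/-! Module ZE2: zero estimate in two variables and one exponential. -/

set_option autoImplicit false

namespace Pool.Helper99.BK

open MvPolynomial

theorem st_ZE2 (h1 : ST_ZE2a) (h2 : ST_ZE2c) : ST_ZE2 := by
  intro G _ _ ζ1 ζ2 η hη hmul K Lc x hx B1 B2 B3 hvan hcard hinj
  classical
  obtain ⟨Q, hQ0, hQd, hQv⟩ := h1 G ζ1 ζ2 η hη hmul K Lc x hx B1
    ((B2 ×ˢ B3).image (fun qr : G × G => qr.1 + qr.2)) (by
      intro p hp q hq
      rw [Finset.mem_image] at hq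
      obtain ⟨⟨a, b⟩, hab, rfl⟩ := hq
      rw [Finset.mem_product] at hab
      exact hvan p hp a hab.1 b hab.2) hcard
  have hev : ∀ a ∈ B2.image (fun q : G => (![ζ1 q, ζ2 q] : Fin 2 → ℂ)),
      ∀ b ∈ B3.image (fun q : G => (![ζ1 q, ζ2 q] : Fin 2 → ℂ)),
      MvPolynomial.eval (a + b) Q = 0 := by
    intro a ha b hb
    rw [Finset.mem_image] at ha hb
    obtain ⟨q, hq, rfl⟩ := ha
    obtain ⟨r, hr, rfl⟩ := hb
    have h3 := hQv (q + r) (Finset.mem_image.2 ⟨(q, r), Finset.mem_product.2 ⟨hq, hr⟩, rfl⟩)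
    have h4 : (![ζ1 q, ζ2 q] : Fin 2 → ℂ) + ![ζ1 r, ζ2 r] = ![ζ1 (q + r), ζ2 (q + r)] := by
      funext i
      fin_cases i
      · simp
      · simp
    rw [h4]
    exact h3
  have hc3 : (B3.image (fun q : G => (![ζ1 q, ζ2 q] : Fin 2 → ℂ))).card = B3.card := by
    refine Finset.card_image_of_injOn ?_
    intro q hq r hr hqr
    have h5 := congrFun hqr 0
    have h6 := congrFun hqr 1
    simp only [Matrix.cons_val_zero, Matrix.cons_val_one] at h5 h6
    exact hinj q hq r hr h5 h6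
  rcases h2 Q hQ0 (2 * K * Lc) hQd _ _ hev with h | ⟨μ, hμ, h⟩
  · left
    rw [← hc3]
    exact h
  · right
    refine ⟨μ 0, μ 1, ?_, ?_⟩
    · rintro ⟨h7, h8⟩
      apply hμ
      funext i
      fin_cases i
      · exact h7
      · exact h8
    · rw [Finset.image_image] at h
      exact h

end Pool.Helper99.BK
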